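import Pool.Agent.R435.Fin

/-!
# The leading term formula in rank zero fails for a curve of conductor `5054`

Let `E` be the curve `y² + xy + y = x³ + x² + 1617x + 42677`, the quadratic twist of `X_0(14)` by
the character of `ℚ(√-19)`. It has split multiplicative reduction at `2` and `7`, and `E(ℚ)` has
order `2`. For `S_m = {2, 7}` and `M = 2^a 7^b`, `a ≥ 1`, `b ≥ 2`, the image of `q̃_2` in the
`7`-part of `G_M` is trivial, so every multiple of `([q̃_2] - [1]) ([q̃_7] - [1])` is killed by the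
second moment `∑ c_g [g] ↦ ∑ c_g ψ(g)² ∈ 𝔽_7`, where `ψ : G_M → ℤ/7` is the logarithm modulo `49`;
this moment also vanishes on `I^3`. But the second moment of `θ_M` is not zero.
-/

set_option autoImplicit false

namespace Pool.Agent.Results.MP_b18d48_nt.LeadingTermFails

open Pool.Agent.R435
open Pool.Agent.W97.MT (IsGloballyMinimal)
open Pool.Agent.W97.V20 (GM aug IsSplit)

/-- The formula fails for `E` and `M = p^e q^f`: the images `v`, `w` of `q̃_p`, `q̃_q` in `(ℤ/M)ˣ` and
the element `θ_M` exist, and for all of them and all `c ∈ R` the element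
`θ_M - c ([v] - [1]) ([w] - [1])` is not in `I^3`. -/
def FailsAt (W : WeierstrassCurve ℤ) (p q : ℕ) [Fact p.Prime] [Fact q.Prime] (e f M : ℕ) : Prop :=
  (∃ v : (ZMod M)ˣ, IsQt W p e M v) ∧ (∃ w : (ZMod M)ˣ, IsQt W q f M w) ∧
  (∃ θ : MonoidAlgebra (RT W M) (GM M), IsTheta W M θ) ∧
  ∀ v w : (ZMod M)ˣ, IsQt W p e M v → IsQt W q f M w →
    ∀ θ : MonoidAlgebra (RT W M) (GM M), IsTheta W M θ → ∀ c : RT W M,
      θ - c • (br (RT W M) v * br (RT W M) w) ∉ aug (RT W M) (GM M) ^ 3

/-- **Negated form of Q1.** -/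
theorem result :
    -- `E` is given by a global minimal equation, `E(ℚ)` has order `2`, and `E` has split
    -- multiplicative reduction at `2` and `7`
    IsGloballyMinimal EE ∧ Nat.card (Pts EE) = 2 ∧ IsSplit EE 2 ∧ IsSplit EE 7 ∧
    -- for all `M = 2^a 7^b`, `a ≥ 1`, `b ≥ 2`, the class of `θ_M` is not a multiple of
    -- `([q̃_2] - [1]) ([q̃_7] - [1])` modulo `I^3`
    (∀ a b : ℕ, 1 ≤ a → 2 ≤ b → FailsAt EE 2 7 a b (2 ^ a * 7 ^ b)) ∧
    -- so the conjecture is false, whatever the rational factor is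
    ¬ LeadingTermConjecture := by
  refine ⟨s_min.1, s_pts, s_min.2.1, s_min.2.2.1, fun a b ha hb => ⟨exists_v2 a b,
    exists_v7 a b, ?_, fun v₂ v₇ h2 h7 θ hθ c => ?_⟩, fun hconj => ?_⟩
  · have : NeZero (2 ^ a * 7 ^ b) := ⟨by positivity⟩
    exact exists_theta
  · have h := theta_not ha hb θ hθ {2, 7} (fun p => if p = 2 then v₂ else v₇) (by simp)
      (by simpa using h2) c
    rw [Finset.prod_pair (by norm_num)] at h
    simpa using h
  · obtain ⟨v₂, h2⟩ := exists_v2 1 2
    obtain ⟨v₇, h7⟩ := exists_v7 1 2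
    have : NeZero (2 ^ 1 * 7 ^ 2) := ⟨by norm_num⟩
    obtain ⟨θ, hθ⟩ := exists_theta (M := 2 ^ 1 * 7 ^ 2)
    have hfin : Finite (Pts EE) := Nat.finite_of_card_ne_zero (by rw [s_pts]; norm_num)
    obtain ⟨-, c, hc⟩ := hconj EE s_min.1 hfin {2, 7} (fun p => if p = 2 then 1 else 2)
      (by
        intro p hp
        rw [Finset.mem_insert, Finset.mem_singleton] at hp
        rcases hp with rfl | rfl
        · exact ⟨by norm_num, s_min.2.1, by simp⟩
        · exact ⟨by norm_num, s_min.2.2.1, by simp⟩)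
      (2 ^ 1 * 7 ^ 2) (by rw [Finset.prod_pair (by norm_num)]; simp)
      (fun p => if p = 2 then v₂ else v₇)
      (by
        intro p hF hp
        rw [Finset.mem_insert, Finset.mem_singleton] at hp
        rcases hp with rfl | rfl
        · simpa using h2
        · simpa using h7) θ hθ
    have hcard : ({2, 7} : Finset ℕ).card = 2 := rfl
    rw [hcard] at hc
    exact theta_not le_rfl le_rfl θ hθ {2, 7} (fun p => if p = 2 then v₂ else v₇) (by simp)
      (by simpa using h2) c hc

end Pool.Agent.Results.MP_b18d48_nt.LeadingTermFails
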